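import Pool.Agent.helper83.TA.GF
import Pool.Agent.helper83.TA.Defs
import Pool.Agent.helper83.TA.Pair
import Pool.Agent.helper26.TA.Rep
import Pool.Agent.helper85.TA.Split
import Pool.Agent.helper55.TA.Pos
import Pool.Agent.helper55.TA.Quint
import Pool.Agent.helper40.TA.Aniso
import Pool.Agent.helper25.TA.ISO
import Pool.Agent.helper25.TA.GM

/-!
# MP_fc48e7_al: an anisotropic absolutely almost simple group which becomes isotropic over an
extension of degree prime to its torsion primes
-/

set_option autoImplicit false

namespace Pool.Agent.Results.MP_fc48e7_al.AnisotropyLost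

open Pool.Agent.helper83.TA GroupFunctor

/-- Over `F = ℚ(t)` there is an anisotropic affine algebraic group `G`, a form of `SL_27`
(so `G` is absolutely almost simple of type `A_26`, and `S(G) = {2, 3}`), which becomes isotropic
over an extension `L` of `F` of degree `5`. -/
theorem result : ∃ (L : Type) (_ : Field L) (_ : Algebra (RatFunc ℚ) L)
    (G : GroupFunctor (RatFunc ℚ)), G.IsAffineAlgebraic ∧
      (G.baseChange (AlgebraicClosure (RatFunc ℚ))).Isomorphic
        (SL 27 (AlgebraicClosure (RatFunc ℚ))) ∧
      ¬ G.Isotropic ∧ Module.finrank (RatFunc ℚ) L = 5 ∧ (G.baseChange L).Isotropic := by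
  obtain ⟨L, i1, i2, x, h5, hx⟩ := Pool.Agent.helper55.TA.exists_quintic
  have ht : (RatFunc.X : F0) ≠ 0 := RatFunc.X_ne_zero
  have hinj := (algebraMap F0 L).injective
  have ht' : algebraMap F0 L RatFunc.X ≠ 0 := by
    rw [Ne, map_eq_zero_iff _ hinj]
    exact ht
  have : CharZero L := charZero_of_injective_algebraMap hinj
  have : CharZero (AlgebraicClosure F0) :=
    charZero_of_injective_algebraMap (algebraMap F0 (AlgebraicClosure F0)).injective
  have h3 : x ^ 2 + 3 ≠ 0 := by
    intro h
    rw [h, mul_zero] at hx
    have h0 : x ≠ 0 := by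
      rintro rfl
      simp at h
    have : x ^ 2 + 12 = 0 := by
      rcases mul_eq_zero.mp hx.symm with h' | h'
      · exact absurd ((pow_eq_zero_iff (by norm_num)).mp h') h0
      · exact h'
    have h9 : (9 : L) = 0 := by linear_combination this - h
    norm_num at h9
  have h12 : x ^ 2 + 12 ≠ 0 := by
    intro h
    rw [h, mul_zero] at hx
    rcases mul_eq_zero.mp hx with h' | h'
    · exact ht' h'
    · exact h3 h'
  have h0 : x ≠ 0 := by
    rintro rfl
    have : algebraMap F0 L RatFunc.X * 3 = 0 := by
      linear_combination hx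
    rcases mul_eq_zero.mp this with h' | h'
    · exact ht' h'
    · norm_num at h'
  obtain ⟨V, W, e1, e2, e3, e4, e5⟩ := exists_pair L x _ h0 h3 h12 hx
  refine ⟨L, i1, i2, G0, unitary_isAffineAlgebraic _ _, ?_,
    not_isotropic_of_aniso _ _ (Pool.Agent.helper40.TA.aniso_of Pool.Agent.helper55.TA.pos), h5, ?_⟩
  · exact Pool.Agent.helper85.TA.unitary_split (AlgebraicClosure F0)
      (algebraMap F0 (AlgebraicClosure F0) RatFunc.X) (by
        rw [Ne, map_eq_zero_iff _ (algebraMap F0 (AlgebraicClosure F0)).injective]
        exact ht)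
  · exact isotropic_of_pair L _ ht' V W e1 e2 e3 e4 e5

end Pool.Agent.Results.MP_fc48e7_al.AnisotropyLost
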